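import Pool.Agent.Helper77.SUBK.SheetK

/-!
Project SUBK, row CHR: independence of the automorphisms.
-/

set_option autoImplicit false

namespace Pool.Agent.Helper8.SUBK

open Finset Matrix Pool.Agent.Helper70.SUB Pool.Agent.Helper77.SUBK

section chr

variable (M : Type) [Field M] [NumberField M] [IsGalois ℚ M]

theorem chr_card (d : ℕ) (ω : Module.Basis (Fin d) ℚ M) : Fintype.card (M ≃ₐ[ℚ] M) = d := by
  have h1 := IsGalois.card_aut_eq_finrank ℚ M
  have h2 := Module.finrank_eq_card_basis ω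
  rw [Nat.card_eq_fintype_card] at h1
  rw [h1, h2, Fintype.card_fin]

theorem chr_inj (d : ℕ) (ω : Module.Basis (Fin d) ℚ M) (X : Fin d → M)
    (hX : ∀ σ : M ≃ₐ[ℚ] M, ∑ l, σ (ω l) * X l = 0) : X = 0 := by
  have hdet : ((Algebra.traceMatrix ℚ ω).map (algebraMap ℚ M)).det ≠ 0 := by
    have h1 : ((Algebra.traceMatrix ℚ ω).map (algebraMap ℚ M)).det =
        algebraMap ℚ M (Algebra.traceMatrix ℚ ω).det := by
      rw [RingHom.map_det]
      rfl
    rw [h1]
    have h2 := Algebra.discr_not_zero_of_basis ℚ ω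
    rw [Algebra.discr_def] at h2
    intro h3
    exact h2 ((map_eq_zero_iff _ (algebraMap ℚ M).injective).mp h3)
  refine Matrix.eq_zero_of_mulVec_eq_zero hdet ?_
  funext m
  simp only [Matrix.mulVec, dotProduct, Matrix.map_apply, Pi.zero_apply, Algebra.traceMatrix_apply,
    Algebra.traceForm_apply]
  have h3 : ∀ l, (algebraMap ℚ M) (Algebra.trace ℚ M (ω m * ω l)) =
      ∑ σ : M ≃ₐ[ℚ] M, σ (ω m) * σ (ω l) := by
    intro l
    rw [trace_eq_sum_automorphisms]
    exact Finset.sum_congr rfl fun σ _ => map_mul σ _ _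
  have h4 : ∑ l, (algebraMap ℚ M) (Algebra.trace ℚ M (ω m * ω l)) * X l =
      ∑ σ : M ≃ₐ[ℚ] M, σ (ω m) * ∑ l, σ (ω l) * X l := by
    rw [Finset.sum_congr rfl fun l _ => by rw [h3 l, Finset.sum_mul]]
    rw [Finset.sum_comm]
    refine Finset.sum_congr rfl fun σ _ => ?_
    rw [Finset.mul_sum]
    exact Finset.sum_congr rfl fun l _ => mul_assoc _ _ _
  rw [h4]
  exact Finset.sum_eq_zero fun σ _ => by rw [hX σ, mul_zero]

/-- the dual system -/
theorem chr_dual (d : ℕ) (ω : Module.Basis (Fin d) ℚ M) :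
    ∃ m : (M ≃ₐ[ℚ] M) → Fin d → M, ∀ σ σ' : M ≃ₐ[ℚ] M,
      ∑ l, m σ l * σ' (ω l) = (open Classical in if σ = σ' then 1 else 0) := by
  classical
  set e : (M ≃ₐ[ℚ] M) ≃ Fin d := Fintype.equivFinOfCardEq (chr_card M d ω) with he
  set E : Matrix (Fin d) (Fin d) M := fun i l => (e.symm i) (ω l) with hE
  have hdet : E.det ≠ 0 := by
    intro h0
    obtain ⟨v, hv, hv0⟩ := Matrix.exists_mulVec_eq_zero_iff.mpr h0
    apply hv
    refine chr_inj M d ω v ?_
    intro σ
    have h1 := congrFun hv0 (e σ)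
    simp only [Matrix.mulVec, dotProduct, hE, Equiv.symm_apply_apply, Pi.zero_apply] at h1
    exact h1
  have hinv : E * E⁻¹ = 1 := Matrix.mul_nonsing_inv E (isUnit_iff_ne_zero.mpr hdet)
  refine ⟨fun σ l => E⁻¹ l (e σ), fun σ σ' => ?_⟩
  have h1 := congrFun (congrFun hinv (e σ')) (e σ)
  rw [Matrix.mul_apply] at h1
  simp only [hE, Equiv.symm_apply_apply] at h1
  have h2 : ∑ l, E⁻¹ l (e σ) * σ' (ω l) = ∑ l, σ' (ω l) * E⁻¹ l (e σ) :=
    Finset.sum_congr rfl fun l _ => mul_comm _ _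
  rw [h2, h1, Matrix.one_apply]
  by_cases h : σ = σ'
  · rw [if_pos h, if_pos (by rw [h])]
  · rw [if_neg h, if_neg (fun h3 => h (e.injective h3).symm)]

theorem CHR : ST_CHR := by
  intro M _ _ _
  classical
  refine ⟨fun d ω => ⟨chr_card M d ω, chr_inj M d ω⟩, fun r hr => ?_⟩
  set ω := Module.finBasis ℚ M with hω
  set d := Module.finrank ℚ M with hd
  obtain ⟨m, hm⟩ := chr_dual M d ω
  set R : (M ≃ₐ[ℚ] M) → M → (M ≃ₐ[ℚ] M) → M := fun σ x σ' => if r σ σ' then σ' x else 0 with hR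
  have hrow : ∀ σ, (∑ l, m σ l • R σ (ω l)) = (1 : Matrix (M ≃ₐ[ℚ] M) (M ≃ₐ[ℚ] M) M) σ := by
    intro σ
    funext σ'
    rw [Finset.sum_apply]
    simp only [Pi.smul_apply, smul_eq_mul, hR]
    rw [Matrix.one_apply]
    by_cases h : σ = σ'
    · subst h
      rw [if_pos rfl]
      have h1 := hm σ σ
      rw [if_pos rfl] at h1
      rw [← h1]
      exact Finset.sum_congr rfl fun l _ => by rw [if_pos (hr σ)]
    · rw [if_neg h]
      have h1 := hm σ σ'
      rw [if_neg h] at h1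
      by_cases h2 : r σ σ'
      · rw [← h1]
        exact Finset.sum_congr rfl fun l _ => by rw [if_pos h2]
      · exact Finset.sum_eq_zero fun l _ => by rw [if_neg h2, mul_zero]
  have hex : ∃ g : (M ≃ₐ[ℚ] M) → M,
      Matrix.det (fun σ σ' => R σ (g σ) σ' : Matrix (M ≃ₐ[ℚ] M) (M ≃ₐ[ℚ] M) M) ≠ 0 := by
    by_contra hno
    push Not at hno
    have h1 : Matrix.det (1 : Matrix (M ≃ₐ[ℚ] M) (M ≃ₐ[ℚ] M) M) = 0 := by
      have h2 : (1 : Matrix (M ≃ₐ[ℚ] M) (M ≃ₐ[ℚ] M) M) = fun σ => ∑ l, m σ l • R σ (ω l) :=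
        funext fun σ => (hrow σ).symm
      rw [h2]
      have h3 := (Matrix.detRowAlternating (R := M) (n := (M ≃ₐ[ℚ] M))).toMultilinearMap.map_sum
        (fun σ l => m σ l • R σ (ω l))
      refine Eq.trans h3 (Finset.sum_eq_zero fun γ _ => ?_)
      have h4 := (Matrix.detRowAlternating (R := M)
        (n := (M ≃ₐ[ℚ] M))).toMultilinearMap.map_smul_univ
        (fun σ => m σ (γ σ)) (fun σ => R σ (ω (γ σ)))
      refine Eq.trans h4 ?_
      have h5 := hno (fun σ => ω (γ σ))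
      exact (congrArg _ h5).trans (smul_zero _)
    rw [Matrix.det_one] at h1
    exact one_ne_zero h1
  obtain ⟨g, hg⟩ := hex
  refine ⟨g, fun X hX => ?_⟩
  refine Matrix.eq_zero_of_mulVec_eq_zero hg ?_
  funext σ
  exact hX σ

end chr

end Pool.Agent.Helper8.SUBK
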