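import Pool.Agent.Helper8.SUBK.MONOK

/-!
Project SUBK, row U2K: lower bound at a place for sums of S-units of a Galois extension.
-/

set_option autoImplicit false

namespace Pool.Agent.Helper8.SUBK

open Finset Pool.Agent.Helper70.SUB Pool.Agent.Helper77.SUBK

section gen

variable {M : Type} [Field M]

theorem det_updK {n : ℕ} (i : Fin n) (b : Fin n → M) :
    ((1 : Matrix (Fin n) (Fin n) M).updateRow i b).det = b i := by
  have h := Matrix.cramer_transpose_apply (1 : Matrix (Fin n) (Fin n) M) b i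
  rw [← h, Matrix.transpose_one, Matrix.cramer_one]
  rfl

theorem upd_neK {n : ℕ} (i i1 : Fin n) (b x : Fin n → M) (hi : i ≠ i1) :
    ((1 : Matrix (Fin n) (Fin n) M).updateRow i1 b).mulVec x i = x i := by
  show ((1 : Matrix (Fin n) (Fin n) M).updateRow i1 b) i ⬝ᵥ x = x i
  rw [Matrix.updateRow_ne hi]
  exact congrFun (Matrix.one_mulVec x) i

theorem upd_selfK {n : ℕ} (i1 : Fin n) (b x : Fin n → M) :
    ((1 : Matrix (Fin n) (Fin n) M).updateRow i1 b).mulVec x i1 = ∑ k, b k * x k := by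
  show ((1 : Matrix (Fin n) (Fin n) M).updateRow i1 b) i1 ⬝ᵥ x = _
  rw [Matrix.updateRow_self]
  rfl

end gen

theorem prod_le_mem {κ : Type*} [DecidableEq κ] (s : Finset κ) (f : κ → ℝ)
    (h0 : ∀ i ∈ s, 0 ≤ f i) (h1 : ∀ i ∈ s, f i ≤ 1) (a : κ) (ha : a ∈ s) :
    ∏ i ∈ s, f i ≤ f a := by
  rw [← Finset.mul_prod_erase s f ha]
  have h2 : ∏ i ∈ s.erase a, f i ≤ 1 :=
    Finset.prod_le_one (fun i hi => h0 i (Finset.mem_of_mem_erase hi))
      (fun i hi => h1 i (Finset.mem_of_mem_erase hi))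
  calc f a * ∏ i ∈ s.erase a, f i ≤ f a * 1 := mul_le_mul_of_nonneg_left h2 (h0 a ha)
    _ = f a := mul_one _

/-- the core: at least two terms -/
theorem coreK (hS : ST_SUBTK) (hR : ST_RELK) (hPRK : ST_PRK) (hDEN : ST_DEN)
    (M : Type) [Field M] [NumberField M] [IsGalois ℚ M] (S : Finset ℕ) (P : PF S M)
    (ι : Type) [Fintype ι] [DecidableEq ι] (a : ι → M) (ε : ℝ) (M1 : Set ℕ)
    (u : ℕ → ι → M) (v0 : Option ℕ) (σ0 : M ≃ₐ[ℚ] M)
    (hSp : ∀ p ∈ S, p.Prime) (hne : Nontrivial ι) (ha : ∀ i, a i ≠ 0) (hε : 0 < ε)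
    (hu : ∀ j ∈ M1, ∀ i, SV S (u j i))
    (hnp : ∀ (i i' : ι) (ρ : M), i ≠ i' → {j | j ∈ M1 ∧ u j i = ρ * u j i'}.Finite)
    (hv0 : v0 ∈ plc S) :
    {j | j ∈ M1 ∧ ¬ ∀ (i : ι) (H : ℝ), (∀ i', HB P H (u j i')) →
      P.nv v0 (σ0 (u j i)) * H ^ (-ε) ≤ P.nv v0 (σ0 (∑ i, a i * u j i))}.Finite := by
  classical
  obtain ⟨-, hpfS, hH1⟩ := hPRK M S P hSp
  obtain ⟨hden, hfin⟩ := hDEN M S P hSp
  by_contra hinf
  have hinf1 : {j | j ∈ M1 ∧ ¬ ∀ (i : ι) (H : ℝ), (∀ i', HB P H (u j i')) →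
      P.nv v0 (σ0 (u j i)) * H ^ (-ε) ≤ P.nv v0 (σ0 (∑ i, a i * u j i))}.Infinite := hinf
  set E := {j | j ∈ M1 ∧ ¬ ∀ (i : ι) (H : ℝ), (∀ i', HB P H (u j i')) →
      P.nv v0 (σ0 (u j i)) * H ^ (-ε) ≤ P.nv v0 (σ0 (∑ i, a i * u j i))} with hE
  have hneι : Nonempty ι := inferInstance
  -- the index of the largest term
  have hmax : ∀ j, ∃ i0, ∀ i, P.nv v0 (σ0 (u j i)) ≤ P.nv v0 (σ0 (u j i0)) := by
    intro j
    obtain ⟨i0, -, h⟩ := Finset.exists_max_image (Finset.univ : Finset ι)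
      (fun i => P.nv v0 (σ0 (u j i))) Finset.univ_nonempty
    exact ⟨i0, fun i => h i (Finset.mem_univ i)⟩
  choose im him using hmax
  obtain ⟨i0, hi0⟩ := Pool.Agent.Helper8.SUB.pigeon hinf1 im
  set E1 := {j | j ∈ E ∧ im j = i0} with hE1
  have hE1M : ∀ j ∈ E1, j ∈ M1 := fun j hj => hj.1.1
  have hEi : ∀ j ∈ E1, ∀ i, P.nv v0 (σ0 (u j i)) ≤ P.nv v0 (σ0 (u j i0)) := by
    intro j hj i
    have := him j i
    rwa [hj.2] at this
  -- the height
  have hQex : ∀ j, ∃ H : ℝ, j ∈ E1 → 1 ≤ H ∧ (∀ i', HB P H (u j i')) ∧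
      P.nv v0 (σ0 (∑ i, a i * u j i)) ≤ P.nv v0 (σ0 (u j i0)) * H ^ (-ε) := by
    intro j
    by_cases hj : j ∈ E1
    · have h1 := hj.1.2
      push Not at h1
      obtain ⟨i, H, hH, hi⟩ := h1
      have h2 := (hH1 (u j i) H (hu j (hE1M j hj) i) (hH i)).1
      refine ⟨H, fun _ => ⟨h2, hH, hi.le.trans ?_⟩⟩
      exact mul_le_mul_of_nonneg_right (hEi j hj i) (Real.rpow_nonneg (by linarith) _)
    · exact ⟨0, fun h => absurd h hj⟩
  choose Q hQ using hQex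
  -- bounded subsets
  have hbd : ∀ B : ℝ, {j | j ∈ E1 ∧ Q j ≤ B}.Finite := by
    intro B
    by_contra hf
    have hf' : {j | j ∈ E1 ∧ Q j ≤ B}.Infinite := hf
    obtain ⟨i, i', hii⟩ := exists_pair_ne ι
    obtain ⟨y, -, hy⟩ := pigeonS hf' (fun j => (u j i, u j i'))
      ({z : M | SI S z ∧ HB P B z} ×ˢ {z : M | SI S z ∧ HB P B z}) ((hfin B).prod (hfin B))
      (by
        intro j hj
        have h1 : ∀ i, u j i ∈ {z : M | SI S z ∧ HB P B z} := by
          intro i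
          refine ⟨(hu j (hE1M j hj.1) i).2.1, ?_⟩
          intro v hv σ
          exact ((hQ j hj.1).2.1 i v hv σ).trans hj.2
        exact ⟨h1 i, h1 i'⟩)
    obtain ⟨j0, hj0⟩ := hy.nonempty
    refine hy (Set.Finite.subset (hnp i i' (y.1 / y.2) hii) ?_)
    intro j hj
    refine ⟨hE1M j hj.1.1, ?_⟩
    have hne0 : u j i' ≠ 0 := (hu j (hE1M j hj.1.1) i').1
    have e1 : u j i = y.1 := congrArg Prod.fst hj.2
    have e2 : u j i' = y.2 := congrArg Prod.snd hj.2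
    rw [e1, e2]
    rw [e2] at hne0
    field_simp
  -- the large heights
  set D0 : ℝ := ∏ p ∈ S, (p : ℝ) with hD0
  set E2 := {j | j ∈ E1 ∧ D0 ≤ Q j} with hE2
  have hE2inf : E2.Infinite := by
    intro hf
    apply hi0
    refine Set.Finite.subset (hf.union (hbd D0)) ?_
    intro j hj
    rcases le_total D0 (Q j) with h | h
    · exact Or.inl ⟨hj, h⟩
    · exact Or.inr ⟨hj, h⟩
  have hE2M : ∀ j ∈ E2, j ∈ M1 := fun j hj => hE1M j hj.1
  -- the vectors
  set n := Fintype.card ι with hn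
  set e : ι ≃ Fin n := Fintype.equivFin ι with he
  set x : ℕ → Fin n → M := fun j k => u j (e.symm k) with hx
  have hn1 : 1 ≤ n := Fintype.card_pos
  -- the forms
  set b : Fin n → M := fun k => a (e.symm k) with hb
  set L : Option ℕ → (M ≃ₐ[ℚ] M) → Matrix (Fin n) (Fin n) M := fun v σ =>
    if v = v0 ∧ (∀ z, P.nv v (σ z) = P.nv v (σ0 z)) then
      (1 : Matrix (Fin n) (Fin n) M).updateRow (e i0) b else 1 with hL
  have hdet : ∀ v ∈ plc S, ∀ σ, (L v σ).det ≠ 0 := by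
    intro v _ σ
    simp only [hL]
    split_ifs
    · rw [det_updK]
      exact ha _
    · simp
  have hcon : Con P L := by
    intro v _ σ σ' hσ
    simp only [hL]
    have h1 : (v = v0 ∧ (∀ z, P.nv v (σ z) = P.nv v (σ0 z))) ↔
        (v = v0 ∧ (∀ z, P.nv v (σ' z) = P.nv v (σ0 z))) := by
      constructor
      · rintro ⟨h, h'⟩
        exact ⟨h, fun z => (hσ z).symm.trans (h' z)⟩
      · rintro ⟨h, h'⟩
        exact ⟨h, fun z => (hσ z).trans (h' z)⟩
    simp only [h1]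
  have hprod : ∀ j ∈ E2, ∏ v ∈ plc S, ∏ σ : M ≃ₐ[ℚ] M, ∏ i,
      P.nv v (σ ((L v σ).mulVec (x j) i)) ≤ Q j ^ (-ε) := by
    intro j hj
    obtain ⟨hQ1, hQH, hQs⟩ := hQ j hj.1
    have hup : 0 < P.nv v0 (σ0 (u j i0)) := by
      refine P.pos v0 hv0 _ ?_
      have h1 := (hu j (hE2M j hj) i0).1
      intro h0
      exact h1 ((map_eq_zero_iff σ0 σ0.injective).mp h0)
    set r : ℝ := P.nv v0 (σ0 (∑ i, a i * u j i)) / P.nv v0 (σ0 (u j i0)) with hr
    have hr0 : 0 ≤ r := div_nonneg (P.nn _ _) hup.le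
    have hrQ : r ≤ Q j ^ (-ε) := by
      rw [hr, div_le_iff₀ hup, mul_comm]
      exact hQs
    have hr1 : r ≤ 1 := hrQ.trans (Real.rpow_le_one_of_one_le_of_nonpos hQ1 (by linarith))
    have hfac : ∀ (v : Option ℕ) (σ : M ≃ₐ[ℚ] M), ∏ i, P.nv v (σ ((L v σ).mulVec (x j) i)) =
        (∏ i, P.nv v (σ (x j i))) *
          (if v = v0 ∧ (∀ z, P.nv v (σ z) = P.nv v (σ0 z)) then r else 1) := by
      intro v σ
      by_cases hc : v = v0 ∧ (∀ z, P.nv v (σ z) = P.nv v (σ0 z))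
      · obtain ⟨hv, hσ⟩ := hc
        subst hv
        rw [if_pos ⟨rfl, hσ⟩]
        have hLv : L v σ = (1 : Matrix (Fin n) (Fin n) M).updateRow (e i0) b :=
          if_pos ⟨rfl, hσ⟩
        rw [hLv]
        have h2 : ((1 : Matrix (Fin n) (Fin n) M).updateRow (e i0) b).mulVec (x j) (e i0) =
            ∑ i, a i * u j i := by
          rw [upd_selfK]
          exact Equiv.sum_comp e.symm (fun i => a i * u j i)
        rw [← Finset.mul_prod_erase Finset.univ _ (Finset.mem_univ (e i0)),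
          ← Finset.mul_prod_erase Finset.univ (fun i => P.nv v (σ (x j i)))
            (Finset.mem_univ (e i0)), h2]
        have h3 : ∏ i ∈ Finset.univ.erase (e i0),
            P.nv v (σ (((1 : Matrix (Fin n) (Fin n) M).updateRow (e i0) b).mulVec (x j) i)) =
            ∏ i ∈ Finset.univ.erase (e i0), P.nv v (σ (x j i)) := by
          refine Finset.prod_congr rfl fun i hi => ?_
          rw [upd_neK i (e i0) b (x j) (Finset.ne_of_mem_erase hi)]
        rw [h3, hσ, hσ]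
        have h4 : x j (e i0) = u j i0 := by
          simp [hx]
        rw [h4, hr]
        have h5 : P.nv v (σ0 (u j i0)) ≠ 0 := hup.ne'
        field_simp
      · rw [if_neg hc, mul_one]
        have hLv : L v σ = 1 := if_neg hc
        rw [hLv, Matrix.one_mulVec]
    have hall : ∏ v ∈ plc S, ∏ σ : M ≃ₐ[ℚ] M, ∏ i, P.nv v (σ (x j i)) = 1 := by
      have h1 : ∏ i, ∏ v ∈ plc S, ∏ σ : M ≃ₐ[ℚ] M, P.nv v (σ (x j i)) =
          ∏ v ∈ plc S, ∏ σ : M ≃ₐ[ℚ] M, ∏ i, P.nv v (σ (x j i)) :=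
        Finset.prod_comm.trans (Finset.prod_congr rfl fun v _ => Finset.prod_comm)
      rw [← h1]
      exact Finset.prod_eq_one fun i _ => hpfS (x j i) (hu j (hE2M j hj) (e.symm i))
    have htot : ∏ v ∈ plc S, ∏ σ : M ≃ₐ[ℚ] M, ∏ i, P.nv v (σ ((L v σ).mulVec (x j) i)) =
        ∏ v ∈ plc S, ∏ σ : M ≃ₐ[ℚ] M,
          (if v = v0 ∧ (∀ z, P.nv v (σ z) = P.nv v (σ0 z)) then r else 1) := by
      have h1 : ∏ v ∈ plc S, ∏ σ : M ≃ₐ[ℚ] M, ∏ i, P.nv v (σ ((L v σ).mulVec (x j) i)) =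
          ∏ v ∈ plc S, ((∏ σ : M ≃ₐ[ℚ] M, ∏ i, P.nv v (σ (x j i))) * ∏ σ : M ≃ₐ[ℚ] M,
          (if v = v0 ∧ (∀ z, P.nv v (σ z) = P.nv v (σ0 z)) then r else 1)) := by
        refine Finset.prod_congr rfl fun v _ => ?_
        rw [← Finset.prod_mul_distrib]
        exact Finset.prod_congr rfl fun σ _ => hfac v σ
      rw [h1, Finset.prod_mul_distrib, hall, one_mul]
    rw [htot]
    have hf0 : ∀ (v : Option ℕ) (σ : M ≃ₐ[ℚ] M),
        0 ≤ (if v = v0 ∧ (∀ z, P.nv v (σ z) = P.nv v (σ0 z)) then r else 1) := by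
      intro v σ
      split_ifs
      · exact hr0
      · exact zero_le_one
    have hf1 : ∀ (v : Option ℕ) (σ : M ≃ₐ[ℚ] M),
        (if v = v0 ∧ (∀ z, P.nv v (σ z) = P.nv v (σ0 z)) then r else 1) ≤ 1 := by
      intro v σ
      split_ifs
      · exact hr1
      · exact le_rfl
    have h1 := prod_le_mem (plc S) (fun v => ∏ σ : M ≃ₐ[ℚ] M,
      (if v = v0 ∧ (∀ z, P.nv v (σ z) = P.nv v (σ0 z)) then r else 1))
      (fun v _ => Finset.prod_nonneg fun σ _ => hf0 v σ)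
      (fun v _ => Finset.prod_le_one (fun σ _ => hf0 v σ) (fun σ _ => hf1 v σ)) v0 hv0
    have h2 := prod_le_mem (Finset.univ : Finset (M ≃ₐ[ℚ] M)) (fun σ =>
      (if v0 = v0 ∧ (∀ z, P.nv v0 (σ z) = P.nv v0 (σ0 z)) then r else 1))
      (fun σ _ => hf0 v0 σ) (fun σ _ => hf1 v0 σ) σ0 (Finset.mem_univ _)
    have h3 : (if v0 = v0 ∧ (∀ z, P.nv v0 (σ0 z) = P.nv v0 (σ0 z)) then r else 1) = r :=
      if_pos ⟨rfl, fun z => rfl⟩
    exact (h1.trans (h2.trans h3.le)).trans hrQ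
  have hA : (0 : ℝ) < (S.card : ℝ) + 1 := by positivity
  obtain ⟨w, hw0, hwinf⟩ := hS M S P n L ε ((S.card : ℝ) + 1) E2 Q x hn1 hSp hdet hcon hε hA
    hE2inf (fun B => Set.Finite.subset (hbd B) fun j hj => ⟨hj.1.1, hj.2⟩) (by
      intro j hj
      obtain ⟨hQ1, hQH, hQs⟩ := hQ j hj.1
      have hQ0 : 0 < Q j := by linarith
      refine ⟨hQ1, ?_, ?_, hprod j hj⟩
      · obtain ⟨m, hm, hmle, hmi⟩ := hden (Q j) hQ1
        refine ⟨m, hm, hmle.trans ?_, ?_⟩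
        · rw [Real.rpow_add hQ0, Real.rpow_natCast, Real.rpow_one, mul_comm]
          exact mul_le_mul_of_nonneg_left hj.2 (by positivity)
        · intro i
          refine hmi (x j i) (hu j (hE2M j hj) (e.symm i)).2.1 ?_
          intro p hp σ
          exact hQH (e.symm i) (some p) (mem_some hp) σ
      · intro σ i
        refine (hQH (e.symm i) none mem_none σ).trans ?_
        calc Q j = Q j ^ (1 : ℝ) := (Real.rpow_one _).symm
          _ ≤ Q j ^ ((S.card : ℝ) + 1) := by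
            apply Real.rpow_le_rpow_of_exponent_le hQ1
            have : (0 : ℝ) ≤ S.card := Nat.cast_nonneg _
            linarith)
  -- the relation
  have hwT : ∃ k, w k ≠ 0 := by
    by_contra h
    push Not at h
    exact hw0 (funext h)
  obtain ⟨k0, hk0⟩ := hwT
  have hne' : Nonempty {i : ι // w (e i) ≠ 0} := ⟨⟨e.symm k0, by simpa using hk0⟩⟩
  set E3 := {j | j ∈ E2 ∧ ∑ k, w k * x j k = 0} with hE3
  obtain ⟨i, i', M', ρ, hii, hM', hM'inf, hprop⟩ := hR M S {i : ι // w (e i) ≠ 0}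
    (fun i => w (e i.1)) E3 (fun j i => u j i.1) hSp hne' (fun i => i.2) hwinf
    (fun j hj i => hu j (hE2M j hj.1) i.1) (by
      intro j hj
      have h1 := hj.2
      rw [← Equiv.sum_comp e] at h1
      simp only [hx, Equiv.symm_apply_apply] at h1
      refine Eq.trans ?_ h1
      refine (Finset.sum_subtype (Finset.univ.filter (fun i => w (e i) ≠ 0))
          (fun i => ⟨fun hi => (Finset.mem_filter.mp hi).2,
            fun hi => Finset.mem_filter.mpr ⟨Finset.mem_univ i, hi⟩⟩)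
          (fun i => w (e i) * u j i)).symm.trans ?_
      refine Finset.sum_filter_of_ne fun i _ h h0 => h ?_
      rw [h0, zero_mul])
  refine hM'inf (Set.Finite.subset (hnp i.1 i'.1 ρ (fun h => hii (Subtype.ext h))) ?_)
  intro j hj
  exact ⟨hE2M j (hM' hj).1, hprop j hj⟩

theorem U2K (hS : ST_SUBTK) (hR : ST_RELK) (hPRK : ST_PRK) (hDEN : ST_DEN) : ST_U2K := by
  intro M _ _ _ S P ι _ _ a ε M1 u v0 σ0 hSp hne ha hε hM hu hnp hv0
  rcases subsingleton_or_nontrivial ι with hsub | hnt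
  · obtain ⟨-, hpfS, hH1⟩ := hPRK M S P hSp
    obtain ⟨i0⟩ := hne
    have ha0 : σ0 (a i0) ≠ 0 := fun h0 => ha i0 ((map_eq_zero_iff σ0 σ0.injective).mp h0)
    refine ⟨P.nv v0 (σ0 (a i0)), P.pos v0 hv0 _ ha0, ?_⟩
    refine Set.Finite.subset Set.finite_empty ?_
    intro j hj
    exfalso
    apply hj.2
    intro i H hH
    have h0 : (Finset.univ : Finset ι) = {i0} := by
      ext i'
      simp [Subsingleton.elim i' i0]
    have h1 : (1 : ℝ) ≤ H := (hH1 (u j i0) H (hu j hj.1 i0) (hH i0)).1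
    rw [Subsingleton.elim i i0, h0, Finset.sum_singleton, map_mul, P.mul v0 hv0]
    have h4 : H ^ (-ε) ≤ 1 := Real.rpow_le_one_of_one_le_of_nonpos h1 (by linarith)
    calc P.nv v0 (σ0 (a i0)) * P.nv v0 (σ0 (u j i0)) * H ^ (-ε)
        ≤ P.nv v0 (σ0 (a i0)) * P.nv v0 (σ0 (u j i0)) * 1 :=
          mul_le_mul_of_nonneg_left h4 (mul_nonneg (P.nn _ _) (P.nn _ _))
      _ = P.nv v0 (σ0 (a i0)) * P.nv v0 (σ0 (u j i0)) := mul_one _
  · refine ⟨1, one_pos, ?_⟩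
    have h1 := coreK hS hR hPRK hDEN M S P ι a ε M1 u v0 σ0 hSp hnt ha hε hu hnp hv0
    refine Set.Finite.subset h1 ?_
    intro j hj
    refine ⟨hj.1, fun h => hj.2 fun i H hH => ?_⟩
    rw [one_mul]
    exact h i H hH

end Pool.Agent.Helper8.SUBK
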