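import Pool.Agent.Helper77.SUBK.SheetK
import Pool.Agent.Helper8.SUB.MONO

/-!
Project SUBK, row MONOK: terms as monomials in independent quantities, over a number field.
-/

set_option autoImplicit false

namespace Pool.Agent.Helper8.SUBK

open Finset Pool.Agent.Helper70.SUB Pool.Agent.Helper77.SUBK

theorem pigeonS {α : Type*} {E : Set ℕ} (hE : E.Infinite) (f : ℕ → α) (R : Set α)
    (hR : R.Finite) (h : ∀ j ∈ E, f j ∈ R) : ∃ y ∈ R, {j | j ∈ E ∧ f j = y}.Infinite := by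
  by_contra hc
  push Not at hc
  apply hE
  have h1 : E ⊆ ⋃ y ∈ R, {j | j ∈ E ∧ f j = y} := by
    intro j hj
    simp only [Set.mem_iUnion]
    exact ⟨f j, h j hj, hj, rfl⟩
  refine Set.Finite.subset (hR.biUnion fun y hy => ?_) h1
  exact hc y hy

variable {M : Type} [Field M]

theorem zpow_sumK {κ : Type*} (s : Finset κ) (a : M) (ha : a ≠ 0) (f : κ → ℤ) :
    a ^ (∑ i ∈ s, f i) = ∏ i ∈ s, a ^ (f i) := by
  classical
  induction s using Finset.induction_on with
  | empty => simp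
  | insert i s hi ih => rw [Finset.sum_insert hi, Finset.prod_insert hi, zpow_add₀ ha, ih]

theorem monM_mulVec {n : ℕ} (w : Fin n → M) (hw : ∀ k, w k ≠ 0) (T : Matrix (Fin n) (Fin n) ℤ)
    (x : Fin n → ℤ) : monM w (T.mulVec x) = monM (fun k => monM w (fun i => T i k)) x := by
  unfold monM
  simp only [Matrix.mulVec, dotProduct]
  have h1 : ∀ i, w i ^ (∑ k, T i k * x k) = ∏ k, (w i ^ (T i k)) ^ (x k) := by
    intro i
    rw [zpow_sumK _ _ (hw i)]
    refine Finset.prod_congr rfl fun k _ => ?_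
    rw [zpow_mul]
  rw [Finset.prod_congr rfl fun i _ => h1 i, Finset.prod_comm]
  refine Finset.prod_congr rfl fun k _ => ?_
  rw [Finset.prod_zpow]

theorem monM_ne {n : ℕ} (w : Fin n → M) (hw : ∀ k, w k ≠ 0) (m : Fin n → ℤ) : monM w m ≠ 0 := by
  unfold monM
  exact Finset.prod_ne_zero_iff.mpr fun k _ => zpow_ne_zero _ (hw k)

theorem monM_succ {n : ℕ} (w : Fin (n + 1) → M) (m : Fin (n + 1) → ℤ) :
    monM w m = w 0 ^ m 0 * monM (fun k => w k.succ) (fun k => m k.succ) := Fin.prod_univ_succ _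

/-- finitely many roots -/
theorem zroots_finite (G : ℤ) (hG : G ≠ 0) (ρ : M) : {y : M | y ^ G = ρ}.Finite := by
  have key : ∀ (n : ℕ) (a : M), 0 < n → {y : M | y ^ n = a}.Finite := by
    intro n a hn
    classical
    refine Set.Finite.subset (Polynomial.nthRoots n a).toFinset.finite_toSet ?_
    intro y hy
    simp only [Finset.mem_coe, Multiset.mem_toFinset]
    exact (Polynomial.mem_nthRoots hn).mpr hy
  rcases lt_or_ge G 0 with h | h
  · refine Set.Finite.subset (key (-G).toNat ρ⁻¹ (by omega)) ?_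
    intro y hy
    have hy' : y ^ G = ρ := hy
    show y ^ (-G).toNat = ρ⁻¹
    rw [← zpow_natCast, Int.toNat_of_nonneg (by omega), zpow_neg, hy']
  · refine Set.Finite.subset (key G.toNat ρ (by omega)) ?_
    intro y hy
    have hy' : y ^ G = ρ := hy
    show y ^ G.toNat = ρ
    rw [← zpow_natCast, Int.toNat_of_nonneg h, hy']

/-- representation without independence -/
def RepK (M : Type) [Field M] (ι : Type) [Fintype ι] (M1 : Set ℕ) (u : ℕ → ι → M) (r : ℕ) :
    Prop :=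
  ∃ (M' : Set ℕ) (w : ℕ → Fin r → M) (m : ι → Fin r → ℤ) (c : ι → M), M' ⊆ M1 ∧
    M'.Infinite ∧ (∀ i, c i ≠ 0) ∧ (∀ j ∈ M', ∀ k, w j k ≠ 0) ∧
    (∀ j ∈ M', ∀ i, u j i = c i * monM (w j) (m i)) ∧
    (∀ k, ∃ (κ : M) (e : ι → ℤ), κ ≠ 0 ∧ ∀ j ∈ M', w j k = κ * ∏ i, u j i ^ (e i))

theorem repK0 (ι : Type) [Fintype ι] (M1 : Set ℕ) (u : ℕ → ι → M) (hM : M1.Infinite)
    (hu : ∀ j ∈ M1, ∀ i, u j i ≠ 0) : RepK M ι M1 u (Fintype.card ι) := by
  classical
  set e := Fintype.equivFin ι with he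
  refine ⟨M1, fun j k => u j (e.symm k), fun i => Pi.single (e i) 1, fun _ => 1,
    fun j hj => hj, hM, fun i => one_ne_zero, fun j hj k => hu j hj _, fun j hj i => ?_,
    fun k => ?_⟩
  · have h1 : monM (fun k => u j (e.symm k)) (Pi.single (e i) 1) = u j i := by
      unfold monM
      rw [Finset.prod_eq_single (e i)]
      · simp
      · intro k _ hk
        simp [Pi.single_eq_of_ne hk]
      · simp
    rw [h1, one_mul]
  · refine ⟨1, Pi.single (e.symm k) 1, one_ne_zero, fun j hj => ?_⟩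
    show u j (e.symm k) = _
    rw [one_mul, Finset.prod_eq_single (e.symm k)]
    · simp
    · intro i _ hi
      simp [Pi.single_eq_of_ne hi]
    · simp

theorem repK_step (hU : ST_UNI) (ι : Type) [Fintype ι] (M1 : Set ℕ) (u : ℕ → ι → M) (r : ℕ)
    (M' : Set ℕ) (w : ℕ → Fin (r + 1) → M) (m : ι → Fin (r + 1) → ℤ) (c : ι → M) (hMM : M' ⊆ M1)
    (hc : ∀ i, c i ≠ 0) (hw : ∀ j ∈ M', ∀ k, w j k ≠ 0)
    (hrep : ∀ j ∈ M', ∀ i, u j i = c i * monM (w j) (m i))
    (hwk : ∀ k, ∃ (κ : M) (e : ι → ℤ), κ ≠ 0 ∧ ∀ j ∈ M', w j k = κ * ∏ i, u j i ^ (e i))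
    (hu : ∀ j ∈ M', ∀ i, u j i ≠ 0)
    (l : Fin (r + 1) → ℤ) (ρ : M) (hl : l ≠ 0)
    (hinf : {j | j ∈ M' ∧ monM (w j) l = ρ}.Infinite) : RepK M ι M1 u r := by
  classical
  obtain ⟨l', hl', hg⟩ := Finset.extract_gcd (s := (Finset.univ : Finset (Fin (r + 1)))) l
    Finset.univ_nonempty
  set G : ℤ := Finset.univ.gcd l with hG
  have hG0 : G ≠ 0 := by
    intro h0
    apply hl
    funext k
    rw [hl' k (Finset.mem_univ k), h0, zero_mul]
    rfl
  have hprim : Prim l' := by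
    intro d hd
    apply isUnit_of_dvd_one
    rw [← hg]
    exact Finset.dvd_gcd fun k _ => hd k
  obtain ⟨T, hT, hT0⟩ := hU r l' hprim
  have hml : ∀ j, monM (w j) l = (monM (w j) l') ^ G := by
    intro j
    unfold monM
    rw [← Finset.prod_zpow]
    refine Finset.prod_congr rfl fun k _ => ?_
    rw [hl' k (Finset.mem_univ k), mul_comm, zpow_mul]
  obtain ⟨y, -, hy⟩ := pigeonS hinf (fun j => monM (w j) l') _ (zroots_finite G hG0 ρ)
    (fun j hj => by
      show (monM (w j) l') ^ G = ρ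
      rw [← hml, hj.2])
  obtain ⟨j0, hj0⟩ := hy.nonempty
  have hy0 : y ≠ 0 := by
    rw [← hj0.2]
    exact monM_ne (w j0) (hw j0 hj0.1.1) l'
  have hTinv : T * T⁻¹ = 1 := Matrix.mul_nonsing_inv T hT
  refine ⟨{j | j ∈ {j | j ∈ M' ∧ monM (w j) l = ρ} ∧ monM (w j) l' = y},
    fun j k => monM (w j) (fun i => T i k.succ),
    fun i k => (T⁻¹.mulVec (m i)) k.succ,
    fun i => c i * y ^ ((T⁻¹.mulVec (m i)) 0),
    fun j hj => hMM hj.1.1, hy, fun i => ?_, fun j hj k => ?_, fun j hj i => ?_, fun k => ?_⟩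
  · exact mul_ne_zero (hc i) (zpow_ne_zero _ hy0)
  · exact monM_ne (w j) (hw j hj.1.1) _
  · rw [hrep j hj.1.1 i]
    have h1 : m i = T.mulVec (T⁻¹.mulVec (m i)) := by
      rw [Matrix.mulVec_mulVec, hTinv, Matrix.one_mulVec]
    have h2 : monM (w j) (m i) =
        monM (fun k => monM (w j) (fun i => T i k)) (T⁻¹.mulVec (m i)) := by
      conv_lhs => rw [h1]
      exact monM_mulVec (w j) (fun k => hw j hj.1.1 k) T _
    have h3 : monM (w j) (fun i => T i 0) = y := by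
      have : (fun i => T i 0) = l' := funext hT0
      rw [this]
      exact hj.2
    rw [h2, monM_succ]
    show c i * (monM (w j) (fun i => T i 0) ^ ((T⁻¹.mulVec (m i)) 0) *
        monM (fun k => monM (w j) (fun i => T i k.succ)) (fun k => (T⁻¹.mulVec (m i)) k.succ)) =
      c i * y ^ ((T⁻¹.mulVec (m i)) 0) *
        monM (fun k => monM (w j) (fun i => T i k.succ)) (fun k => (T⁻¹.mulVec (m i)) k.succ)
    rw [h3]
    ring
  · choose κ e hκ he using hwk
    refine ⟨∏ i, κ i ^ (T i k.succ), fun i' => ∑ i, e i i' * T i k.succ,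
      Finset.prod_ne_zero_iff.mpr fun i _ => zpow_ne_zero _ (hκ i), fun j hj => ?_⟩
    show monM (w j) (fun i => T i k.succ) = _
    unfold monM
    have h1 : ∀ i, w j i ^ (T i k.succ) = κ i ^ (T i k.succ) *
        ∏ i', u j i' ^ (e i i' * T i k.succ) := by
      intro i
      rw [he i j hj.1.1, mul_zpow, ← Finset.prod_zpow]
      congr 1
      refine Finset.prod_congr rfl fun i' _ => ?_
      rw [zpow_mul]
    rw [Finset.prod_congr rfl fun i _ => h1 i, Finset.prod_mul_distrib, Finset.prod_comm]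
    congr 1
    refine Finset.prod_congr rfl fun i' _ => ?_
    rw [zpow_sumK _ _ (hu j hj.1.1 i')]

theorem MONOK (hU : ST_UNI) : ST_MONOK := by
  intro M _ _ ι _ M1 u hM hu
  classical
  have hex : ∃ r, RepK M ι M1 u r := ⟨_, repK0 ι M1 u hM hu⟩
  set r := Nat.find hex with hr
  obtain ⟨M', w, m, c, h1, h2, h3, h4, h5, h6⟩ := Nat.find_spec hex
  refine ⟨M', r, w, m, c, h1, h2, h3, ⟨h4, fun l ρ hl => ?_⟩, h5, h6⟩
  by_contra hinf
  have hinf' : {j | j ∈ M' ∧ monM (w j) l = ρ}.Infinite := hinf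
  have hr1 : r ≠ 0 := by
    intro h0
    apply hl
    funext k
    exact absurd k.2 (by omega)
  obtain ⟨r', hr'⟩ := Nat.exists_eq_succ_of_ne_zero hr1
  have key : ∀ (q : ℕ) (w : ℕ → Fin q → M) (m : ι → Fin q → ℤ) (l : Fin q → ℤ),
      q = r' + 1 → (∀ j ∈ M', ∀ k, w j k ≠ 0) →
      (∀ j ∈ M', ∀ i, u j i = c i * monM (w j) (m i)) →
      (∀ k, ∃ (κ : M) (e : ι → ℤ), κ ≠ 0 ∧
        ∀ j ∈ M', w j k = κ * ∏ i, u j i ^ (e i)) → l ≠ 0 →
      {j | j ∈ M' ∧ monM (w j) l = ρ}.Infinite → RepK M ι M1 u r' := by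
    intro q w m l hq
    subst hq
    intro a1 a2 a5 a3 a4
    exact repK_step hU ι M1 u r' M' w m c h1 h3 a1 a2 a5 (fun j hj => hu j (h1 hj)) l ρ a3 a4
  have := key r w m l hr' h4 h5 h6 hl hinf'
  exact Nat.find_min hex (by omega) this

end Pool.Agent.Helper8.SUBK
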